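import Pool.Agent.Helper58.Bil.GeoDefs

set_option autoImplicit false

/-! Piece MIRROR of MP_190632_an: half launcher ⟹ full launcher. -/

namespace Pool.Agent.Helper58.Bil

open Real Set Filter Topology

/-- reflection gluing at `7/40` -/
noncomputable def mir (F F' : ℝ → ℝ) (y : ℝ) : ℝ := if y ≤ 7 / 40 then F y else F' (7 / 20 - y)

/-- both functions are equal to the same constant on the plateau -/
def SamePlat (F F' : ℝ → ℝ) : Prop :=
  ∃ κ : ℝ, ∀ y ∈ Ico (4 / 25 : ℝ) (19 / 100), F y = κ ∧ F' y = κ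

lemma SamePlat.symm {F F' : ℝ → ℝ} (h : SamePlat F F') : SamePlat F' F := by
  obtain ⟨κ, hκ⟩ := h
  exact ⟨κ, fun y hy => (hκ y hy).symm⟩

lemma mir_left {F F' : ℝ → ℝ} (h : SamePlat F F') {y : ℝ} (hy : y < 19 / 100) :
    mir F F' y = F y := by
  obtain ⟨κ, hκ⟩ := h
  unfold mir
  split_ifs with h1
  · rfl
  · push Not at h1
    rw [(hκ (7 / 20 - y) ⟨by linarith, by linarith⟩).2, (hκ y ⟨by linarith, hy⟩).1]

lemma mir_right {F F' : ℝ → ℝ} (h : SamePlat F F') {y : ℝ} (hy : 4 / 25 < y) :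
    mir F F' y = F' (7 / 20 - y) := by
  obtain ⟨κ, hκ⟩ := h
  unfold mir
  split_ifs with h1
  · rw [(hκ (7 / 20 - y) ⟨by linarith, by linarith⟩).2, (hκ y ⟨hy.le, by linarith⟩).1]
  · rfl

lemma mir_left_ev {F F' : ℝ → ℝ} (h : SamePlat F F') {y : ℝ} (hy : y < 19 / 100) :
    mir F F' =ᶠ[𝓝 y] F := by
  filter_upwards [Iio_mem_nhds hy] with z hz
  exact mir_left h hz

lemma mir_right_ev {F F' : ℝ → ℝ} (h : SamePlat F F') {y : ℝ} (hy : 4 / 25 < y) :
    mir F F' =ᶠ[𝓝 y] fun z => F' (7 / 20 - z) := by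
  filter_upwards [Ioi_mem_nhds hy] with z hz
  exact mir_right h hz

lemma deriv_mir_right {F F' : ℝ → ℝ} (h : SamePlat F F') {y : ℝ} (hy : 4 / 25 < y) :
    deriv (mir F F') y = -deriv F' (7 / 20 - y) := by
  rw [(mir_right_ev h hy).deriv_eq, deriv_comp_const_sub]

lemma goodF_mir {F F' : ℝ → ℝ} {c : ℝ} (h : SamePlat F F') (hF : Good F (19 / 100) c)
    (hF' : Good F' (19 / 100) c) : GoodF (mir F F') c := by
  refine ⟨?_, ?_, ?_⟩
  · rw [contDiff_iff_contDiffAt]
    intro y
    rcases lt_or_ge y (19 / 100) with hy | hy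
    · exact (hF.sm.contDiffAt (Iio_mem_nhds hy)).congr_of_eventuallyEq (mir_left_ev h hy)
    · have hy' : 4 / 25 < y := by linarith
      have h1 : ContDiffAt ℝ ((⊤ : ℕ∞) : WithTop ℕ∞) F' (7 / 20 - y) :=
        hF'.sm.contDiffAt (Iio_mem_nhds (by linarith))
      have h2 : ContDiffAt ℝ ((⊤ : ℕ∞) : WithTop ℕ∞) (fun z : ℝ => 7 / 20 - z) y :=
        contDiffAt_const.sub contDiffAt_id
      exact (ContDiffAt.comp y h1 h2).congr_of_eventuallyEq (mir_right_ev h hy')
  · intro y hy
    rw [mem_Ioo, not_and_or, not_lt, not_lt] at hy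
    rcases hy with hy | hy
    · rw [mir_left h (by linarith), hF.zero y hy]
    · rw [mir_right h (by linarith), hF'.zero _ (by linarith)]
  · intro y _
    rcases lt_or_ge y (19 / 100) with hy | hy
    · rw [mir_left h hy, (mir_left_ev h hy).deriv_eq, (mir_left_ev h hy).deriv.deriv_eq]
      exact hF.small y hy
    · have hy' : 4 / 25 < y := by linarith
      have h1 : deriv (mir F F') =ᶠ[𝓝 y] fun z => -deriv F' (7 / 20 - z) := by
        filter_upwards [Ioi_mem_nhds hy'] with z hz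
        exact deriv_mir_right h hz
      have h2 : deriv (fun z => -deriv F' (7 / 20 - z)) y = deriv (deriv F') (7 / 20 - y) := by
        rw [deriv.fun_neg, deriv_comp_const_sub, neg_neg]
      rw [mir_right h hy', deriv_mir_right h hy', h1.deriv_eq, h2, abs_neg]
      exact hF'.small _ (by rw [mem_Iio]; linarith)

lemma flaw_mir {a : ℝ} {f I O : ℝ → ℝ} (hf : SamePlat f f) (hIO : SamePlat I O)
    (h : HLaw a f I O) : FLaw a (mir f f) (mir I O) (mir O I) := by
  have hOI := hIO.symm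
  intro m
  rcases le_or_gt m (7 / 40) with hm | hm
  · obtain ⟨d, hd, hpos, hneg, h1, h2⟩ := h m (by linarith)
    rw [abs_le] at hd
    refine ⟨d, abs_le.mpr hd, ?_, ?_, ?_, ?_⟩
    · intro hmg
      obtain ⟨h3, h4⟩ := hpos hmg.1
      exact ⟨⟨h3, by linarith⟩, ⟨h4, by linarith⟩⟩
    · intro hmg
      apply hneg
      by_contra hcon
      exact hmg ⟨by linarith, by linarith⟩
    · rw [mir_left hIO (by linarith), mir_left hf (by linarith),
        (mir_left_ev hf (by linarith)).deriv_eq]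
      exact h1
    · rw [mir_left hOI (by linarith), mir_left hf (by linarith),
        (mir_left_ev hf (by linarith)).deriv_eq]
      exact h2
  · obtain ⟨d, hd, hpos, hneg, h1, h2⟩ := h (7 / 20 - m) (by linarith)
    rw [abs_le] at hd
    refine ⟨d, abs_le.mpr hd, ?_, ?_, ?_, ?_⟩
    · intro hmg
      obtain ⟨h3, h4⟩ := hpos (by linarith [hmg.2])
      exact ⟨⟨by linarith, by linarith⟩, ⟨by linarith, by linarith⟩⟩
    · intro hmg
      apply hneg
      by_contra hcon
      exact hmg ⟨by linarith, by linarith⟩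
    · rw [mir_right hIO (by linarith), mir_right hf (by linarith), deriv_mir_right hf (by linarith)]
      have e : 7 / 20 - (m - d + a) = 7 / 20 - m + d - a := by ring
      rw [e, h2]
      ring
    · rw [mir_right hOI (by linarith), mir_right hf (by linarith), deriv_mir_right hf (by linarith)]
      have e : 7 / 20 - (m + d - a) = 7 / 20 - m - d + a := by ring
      rw [e, h1]
      ring

lemma chi_eq_one {y : ℝ} (hy : 1 / 10 ≤ y) : chi y = 1 :=
  smoothTransition.one_of_one_le (by linarith)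

theorem mirror {α c ε : ℝ} (h1 : π / 4 < α) (h2 : α < π / 2) {f1 f2 A S : ℝ → ℝ}
    (H : HalfL α c ε f1 f2 A S) :
    ∃ g1 g2 A₁ B₁ A₂ B₂ : ℝ → ℝ, Launcher α c g1 g2 A₁ B₁ A₂ B₂ := by
  have hc1 : ∀ y ∈ Ico (4 / 25 : ℝ) (19 / 100), ε * chi y = ε := by
    intro y hy
    rw [chi_eq_one (by linarith [hy.1]), mul_one]
  have hneg : Good (fun y => -(ε * chi y)) (19 / 100) c := by
    refine ⟨H.gchi.sm.neg, ?_, ?_⟩
    · intro y hy
      rw [H.gchi.zero y hy, neg_zero]
    · intro y hy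
      have e1 : deriv (fun y => -(ε * chi y)) = fun y => -deriv (fun y => ε * chi y) y := by
        funext z
        exact deriv.fun_neg
      have e2 : deriv (fun y => -deriv (fun y => ε * chi y) y) y
          = -deriv (deriv (fun y => ε * chi y)) y := deriv.fun_neg
      rw [e1, e2, abs_neg, abs_neg, abs_neg]
      exact H.gchi.small y hy
  have p1 : SamePlat f1 f1 := ⟨f1 (4 / 25), fun y hy => ⟨(H.plat y hy).1, (H.plat y hy).1⟩⟩
  have p2 : SamePlat f2 f2 := ⟨f2 (4 / 25), fun y hy => ⟨(H.plat y hy).2.1, (H.plat y hy).2.1⟩⟩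
  have pf : SamePlat (fun y => -(ε * chi y)) A :=
    ⟨-ε, fun y hy => ⟨by show -(ε * chi y) = -ε; rw [hc1 y hy], (H.plat y hy).2.2.1⟩⟩
  have ps : SamePlat (fun y => ε * chi y) S :=
    ⟨ε, fun y hy => ⟨hc1 y hy, (H.plat y hy).2.2.2⟩⟩
  refine ⟨mir f1 f1, mir f2 f2, mir A (fun y => -(ε * chi y)), mir (fun y => -(ε * chi y)) A,
    mir (fun y => ε * chi y) S, mir S (fun y => ε * chi y), ?_⟩
  exact
    { g1 := goodF_mir p1 H.g1 H.g1
      g2 := goodF_mir p2 H.g2 H.g2
      gA := goodF_mir pf.symm H.gA hneg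
      gB := goodF_mir pf hneg H.gA
      gA' := goodF_mir ps H.gchi H.gS
      gB' := goodF_mir ps.symm H.gS H.gchi
      fast1 := flaw_mir p1 pf H.fast1
      fast2 := flaw_mir p2 pf.symm H.fast2
      slow1 := flaw_mir p1 ps.symm H.slow1
      slow2 := flaw_mir p2 ps H.slow2
      ne := by
        have hm : (7 / 40 : ℝ) ∈ Ico (4 / 25 : ℝ) (19 / 100) := ⟨by norm_num, by norm_num⟩
        rw [mir_left pf.symm (by norm_num), mir_left ps (by norm_num), (H.plat _ hm).2.2.1,
          hc1 _ hm]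
        have := H.εpos
        intro hcon
        linarith }

end Pool.Agent.Helper58.Bil
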